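import Pool.Agent.H3.NZ.PCX

/-!
# Board nz_modules, module PC0
-/

set_option autoImplicit false

open Equiv (Perm)

namespace Pool.Agent.H3.NZ.PC0

open Pool.Agent.H11.NZ Pool.Agent.H11.NY Pool.Agent.H3.NZ.PCX

theorem pf_pc0 : T_KA → T_DP → T_C2 → T_CD0 → T_CE → T_PC0 := by
  intro hKA hDP hC2 hCD hCE e
  obtain ⟨B₀, hB₀⟩ := hCD e
  refine ⟨max B₀ (e + 6), ?_⟩
  intro L Ω _ _ _ _ ψ X hX K V _ _ _ _ _ ρ hV hsc q a hq hq5 hqe haq hsupp hqK hfix
  have hcard : q + 5 ≤ Fintype.card Ω := by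
    have h1 : (ψ a : Perm Ω).support.card ≤ Fintype.card Ω := Finset.card_le_univ _
    have h2 := le_max_right B₀ (e + 6)
    omega
  obtain ⟨k1, k2⟩ := hKA L Ω ψ X hX K V ρ hV hsc q a hq hq5 hcard haq
  have hsur : ∀ σ : alternatingGroup Ω, ∃ x ∈ X, ψ x = σ := by
    intro σ
    have h1 : σ ∈ X.map ψ := by
      rw [hX.2.1]
      trivial
    exact Subgroup.mem_map.mp h1
  obtain ⟨xa, hxa, hxa'⟩ := hsur (ψ a)
  have hka : xa⁻¹ * a ∈ ψ.ker := by
    rw [MonoidHom.mem_ker, map_mul, map_inv, hxa', inv_mul_cancel]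
  obtain ⟨z, -, v, hv0, hvz, -⟩ := exists_common hV (ρ (xa⁻¹ * a)) (ρ (xa⁻¹ * a)) rfl
  set E : Submodule K V := Module.End.eigenspace (ρ (xa⁻¹ * a)) z with hEdef
  have hvE : v ∈ E := Module.End.mem_eigenspace_iff.mpr hvz
  have hXE : ∀ x ∈ X, ∀ u ∈ E, ρ x u ∈ E := by
    intro x hx u hu
    have hu := Module.End.mem_eigenspace_iff.mp hu
    rw [hEdef, Module.End.mem_eigenspace_iff, ← Module.End.mul_apply,
        k1 _ hka x hx, Module.End.mul_apply, hu, map_smul]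
  obtain ⟨hE, hk⟩ := sup_facts (S := {xa⁻¹ * a}) hX.1 hsc hXE
    (by
      rintro k rfl
      exact hka)
    (by
      rintro k rfl
      exact ⟨z, fun u hu => Module.End.mem_eigenspace_iff.mp hu⟩)
  set H : Subgroup L := X ⊔ Subgroup.closure {xa⁻¹ * a} with hHdef
  have hXH : X ≤ H := le_sup_left
  have hcH : Subgroup.closure {xa⁻¹ * a} ≤ H := le_sup_right
  have haH : a ∈ H := by
    have h1 : xa * (xa⁻¹ * a) ∈ H :=
      H.mul_mem (hXH hxa) (hcH (Subgroup.subset_closure (by simp)))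
    simpa using h1
  have hV2 : ∃ w : E, w ≠ 0 :=
    ⟨⟨v, hvE⟩, fun h0 => hv0 (congrArg (fun w : E => (w : V)) h0)⟩
  have hs2 := surj_res hX.2.1 hXH
  have hsc2 := scal_res hE hk
  obtain ⟨c, hc⟩ := hC2 q H Ω (ψ.comp H.subtype) K E (resRep ρ H E hE) hq hq5 hcard hs2 hV2
    hsc2
  have hfix2 : ∀ w : E, resRep ρ H E hE ⟨a, haH⟩ w = w → w = 0 := by
    intro w hw
    apply Subtype.ext
    apply hfix
    have h1 := congrArg (fun w : E => (w : V)) hw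
    exact h1
  have hid := hB₀ H Ω (ψ.comp H.subtype) K E (resRep ρ H E hE) c q ⟨a, haH⟩ hs2 hV2 hsc2 hc
    hq hq5 hqe (Subtype.ext (by simpa using haq)) ((le_max_left _ _).trans hsupp) hqK hfix2
  have hloc := hCE e q H Ω (ψ.comp H.subtype) K E (resRep ρ H E hE) c hq hq5 hqe hs2 hV2
    hsc2 hc hid
  exact ⟨v, hv0, locAt_of hDP hXH (hq5.trans hqe) hE hloc hvE⟩

end Pool.Agent.H3.NZ.PC0
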