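import Pool.Agent.H11.NZ.Targets

/-!
# Board nz_modules, module PCX
-/

set_option autoImplicit false

open Equiv (Perm)

namespace Pool.Agent.H3.NZ.PCX

open Pool.Agent.H11.NZ Pool.Agent.H11.NY

/-- restriction of a representation to a subgroup and an invariant subspace -/
def resRep {L K V : Type} [Group L] [Field K] [AddCommGroup V] [Module K V]
    (ρ : L →* Module.End K V) (H : Subgroup L) (E : Submodule K V)
    (hE : ∀ y ∈ H, ∀ v ∈ E, ρ y v ∈ E) : H →* Module.End K E where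
  toFun y := (ρ (y : L)).restrict (hE y y.2)
  map_one' := by
    ext v
    simp
  map_mul' x y := by
    ext v
    simp

theorem resRep_coe {L K V : Type} [Group L] [Field K] [AddCommGroup V] [Module K V]
    (ρ : L →* Module.End K V) (H : Subgroup L) (E : Submodule K V)
    (hE : ∀ y ∈ H, ∀ v ∈ E, ρ y v ∈ E) (y : H) (v : E) :
    ((resRep ρ H E hE y v : E) : V) = ρ (y : L) (v : V) := rfl

/-- elements of a perfect subgroup of `X` living on `Δ`, inside `H` -/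
theorem perfOn_subgroupOf {L Ω : Type} [Group L] [Fintype Ω] [DecidableEq Ω]
    {ψ : L →* alternatingGroup Ω} {Δ : Finset Ω} {D H : Subgroup L} (hD : PerfOn ψ Δ D)
    (hDH : D ≤ H) : PerfOn (ψ.comp H.subtype) Δ (D.subgroupOf H) := by
  refine ⟨?_, ?_⟩
  · have hinj : Function.Injective (Subgroup.map H.subtype) :=
      Subgroup.map_injective H.subtype_injective
    apply hinj
    rw [Subgroup.map_commutator, Subgroup.subgroupOf_map_subtype, inf_eq_left.mpr hDH]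
    exact hD.1
  · intro d hd ω hω
    exact hD.2 (d : L) (Subgroup.mem_subgroupOf.mp hd) ω hω

/-- from the local property of the restriction to the local property at a vector -/
theorem locAt_of {L Ω K V : Type} [Group L] [Fintype Ω] [DecidableEq Ω] [Field K]
    [AddCommGroup V] [Module K V] (hDP : T_DP) {ψ : L →* alternatingGroup Ω}
    {X H : Subgroup L} (hXH : X ≤ H) {e : ℕ} (he : 5 ≤ e) {ρ : L →* Module.End K V}
    {E : Submodule K V} (hE : ∀ y ∈ H, ∀ v ∈ E, ρ y v ∈ E)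
    (hloc : LocRep (ψ.comp H.subtype) e (resRep ρ H E hE)) {v : V} (hv : v ∈ E) :
    LocAt ψ X e ρ v := by
  intro Δ Δ' hdis hc hc' D D' hD hD' d hd d' hd'
  have h1 : D ≤ H := hD.1.1.trans hXH
  have h2 : D' ≤ H := hD'.1.1.trans hXH
  have p1 := perfOn_subgroupOf (hDP L Ω ψ X Δ D (he.trans hc) hD) h1
  have p2 := perfOn_subgroupOf (hDP L Ω ψ X Δ' D' (he.trans hc') hD') h2
  have h3 := hloc Δ Δ' hdis hc hc' _ _ p1 p2 ⟨d, h1 hd⟩ (Subgroup.mem_subgroupOf.mpr hd)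
    ⟨d', h2 hd'⟩ (Subgroup.mem_subgroupOf.mpr hd') ⟨v, hv⟩
  have h4 := congrArg (fun w : E => (w : V)) h3
  simpa [resRep_coe] using h4

/-- scalars on the subgroup generated by elements acting by scalars -/
theorem closure_scalar {L K V : Type} [Group L] [Field K] [AddCommGroup V] [Module K V]
    {ρ : L →* Module.End K V} {E : Submodule K V} {S : Set L}
    (hS : ∀ k ∈ S, ∃ z : K, ∀ v ∈ E, ρ k v = z • v) :
    ∀ w ∈ Subgroup.closure S, ∃ z : K, ∀ v ∈ E, ρ w v = z • v := by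
  intro w hw
  induction hw using Subgroup.closure_induction with
  | mem x hx => exact hS x hx
  | one => exact ⟨1, fun v _ => by simp⟩
  | mul x y _ _ hx hy =>
    obtain ⟨z, hz⟩ := hx
    obtain ⟨t, ht⟩ := hy
    refine ⟨z * t, fun v hv => ?_⟩
    rw [map_mul, Module.End.mul_apply, ht v hv, map_smul, hz v hv, smul_smul, mul_comm]
  | inv x _ hx =>
    obtain ⟨z, hz⟩ := hx
    refine ⟨z⁻¹, fun v hv => ?_⟩
    have h1 : ρ x⁻¹ (ρ x v) = v := by
      rw [← Module.End.mul_apply, ← map_mul]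
      simp
    rw [hz v hv, map_smul] at h1
    by_cases h0 : z = 0
    · rw [h0, zero_smul] at h1
      rw [← h1]
      simp
    · rw [← h1, smul_smul, inv_mul_cancel₀ h0, one_smul, h1]

/-- the subgroup `X ⊔ ⟨S⟩` preserves `E`, and the elements of the kernel act by scalars -/
theorem sup_facts {L Ω K V : Type} [Group L] [Fintype Ω] [DecidableEq Ω] [Field K]
    [AddCommGroup V] [Module K V] {ψ : L →* alternatingGroup Ω} {X : Subgroup L}
    (hXn : X.Normal) {ρ : L →* Module.End K V} (hsc : Scal ρ (ψ.ker ⊓ X))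
    {E : Submodule K V} (hXE : ∀ x ∈ X, ∀ v ∈ E, ρ x v ∈ E) {S : Set L}
    (hSk : S ⊆ ψ.ker) (hS : ∀ k ∈ S, ∃ z : K, ∀ v ∈ E, ρ k v = z • v) :
    (∀ y ∈ X ⊔ Subgroup.closure S, ∀ v ∈ E, ρ y v ∈ E) ∧
    ∀ y ∈ X ⊔ Subgroup.closure S, ψ y = 1 → ∃ z : K, ∀ v ∈ E, ρ y v = z • v := by
  have hcl := closure_scalar hS
  have hck : Subgroup.closure S ≤ ψ.ker := (Subgroup.closure_le _).mpr hSk
  have hmem : ∀ y ∈ X ⊔ Subgroup.closure S, ∃ x ∈ X, ∃ w ∈ Subgroup.closure S,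
      x * w = y := by
    intro y hy
    have h1 : y ∈ ((X ⊔ Subgroup.closure S : Subgroup L) : Set L) := hy
    rw [Subgroup.normal_mul] at h1
    obtain ⟨x, hx, w, hw, rfl⟩ := Set.mem_mul.mp h1
    exact ⟨x, hx, w, hw, rfl⟩
  refine ⟨?_, ?_⟩
  · intro y hy v hv
    obtain ⟨x, hx, w, hw, rfl⟩ := hmem y hy
    obtain ⟨z, hz⟩ := hcl w hw
    rw [map_mul, Module.End.mul_apply, hz v hv, map_smul]
    exact E.smul_mem _ (hXE x hx v hv)
  · intro y hy h1
    obtain ⟨x, hx, w, hw, rfl⟩ := hmem y hy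
    obtain ⟨z, hz⟩ := hcl w hw
    have hw1 : ψ w = 1 := hck hw
    have hx1 : ψ x = 1 := by
      rw [map_mul, hw1, mul_one] at h1
      exact h1
    obtain ⟨t, ht⟩ := hsc x ⟨hx1, hx⟩
    refine ⟨t * z, fun v hv => ?_⟩
    rw [map_mul, Module.End.mul_apply, hz v hv, map_smul, ht v, smul_smul, mul_comm]

/-- kernel of the restriction acts by scalars -/
theorem scal_res {L Ω K V : Type} [Group L] [Fintype Ω] [DecidableEq Ω] [Field K]
    [AddCommGroup V] [Module K V] {ψ : L →* alternatingGroup Ω} {H : Subgroup L}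
    {ρ : L →* Module.End K V} {E : Submodule K V} (hE : ∀ y ∈ H, ∀ v ∈ E, ρ y v ∈ E)
    (hk : ∀ y ∈ H, ψ y = 1 → ∃ z : K, ∀ v ∈ E, ρ y v = z • v) :
    Scal (resRep ρ H E hE) (ψ.comp H.subtype).ker := by
  intro y hy
  obtain ⟨z, hz⟩ := hk (y : L) y.2 hy
  refine ⟨z, fun v => ?_⟩
  apply Subtype.ext
  rw [resRep_coe, hz v v.2]
  rfl

/-- the restriction of `ψ` to a subgroup above `X` is surjective -/
theorem surj_res {L Ω : Type} [Group L] [Fintype Ω] [DecidableEq Ω]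
    {ψ : L →* alternatingGroup Ω} {X H : Subgroup L} (hX : X.map ψ = ⊤) (hXH : X ≤ H) :
    Function.Surjective (ψ.comp H.subtype) := by
  intro σ
  have h1 : σ ∈ X.map ψ := by
    rw [hX]
    trivial
  obtain ⟨x, hx, rfl⟩ := Subgroup.mem_map.mp h1
  exact ⟨⟨x, hXH hx⟩, rfl⟩

/-- the commutation of `ρ k` with `ρ h`, `k = x⁻¹ a` -/
theorem comm_k {L K V : Type} [Group L] [Field K] [AddCommGroup V] [Module K V]
    {ρ : L →* Module.End K V} {x a h : L} (h1 : ρ x * ρ h = ρ h * ρ x)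
    (h2 : a * h = h * a) : ρ (x⁻¹ * a) * ρ h = ρ h * ρ (x⁻¹ * a) := by
  have h3 : ρ x⁻¹ * ρ h = ρ h * ρ x⁻¹ := by
    have h4 : ρ x⁻¹ * (ρ x * ρ h) * ρ x⁻¹ = ρ x⁻¹ * (ρ h * ρ x) * ρ x⁻¹ := by rw [h1]
    have h5 : ρ x⁻¹ * ρ x = 1 := by rw [← map_mul]; simp
    have h6 : ρ x * ρ x⁻¹ = 1 := by rw [← map_mul]; simp
    rw [← mul_assoc, h5, one_mul, mul_assoc (ρ x⁻¹), mul_assoc (ρ h), h6, mul_one] at h4
    exact h4.symm
  rw [map_mul, mul_assoc, ← map_mul, h2, map_mul, ← mul_assoc, h3, mul_assoc]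

/-- a common eigenvector of two commuting operators -/
theorem exists_common {K V : Type} [Field K] [IsAlgClosed K] [AddCommGroup V] [Module K V]
    [Module.Finite K V] (hV : ∃ v : V, v ≠ 0) (f g : Module.End K V)
    (hfg : f * g = g * f) : ∃ (z t : K) (v : V), v ≠ 0 ∧ f v = z • v ∧ g v = t • v := by
  obtain ⟨v0, hv0⟩ := hV
  have : Nontrivial V := ⟨⟨v0, 0, hv0⟩⟩
  obtain ⟨z, hz⟩ := Module.End.exists_eigenvalue f
  have hinv : ∀ v ∈ Module.End.eigenspace f z, g v ∈ Module.End.eigenspace f z := by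
    intro v hv
    rw [Module.End.mem_eigenspace_iff] at hv ⊢
    rw [← Module.End.mul_apply, hfg, Module.End.mul_apply, hv, map_smul]
  have : Nontrivial (Module.End.eigenspace f z) := by
    rw [Submodule.nontrivial_iff_ne_bot]
    exact hz
  obtain ⟨t, ht⟩ := Module.End.exists_eigenvalue (g.restrict hinv)
  obtain ⟨w, hw⟩ := ht.exists_hasEigenvector
  refine ⟨z, t, (w : V), ?_, ?_, ?_⟩
  · intro h0
    exact hw.2 (Subtype.ext h0)
  · exact Module.End.mem_eigenspace_iff.mp w.2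
  · have h1 := congrArg (fun u : Module.End.eigenspace f z => (u : V))
      (Module.End.mem_eigenspace_iff.mp hw.1)
    simpa using h1

/-- restriction of `HPair` -/
theorem hpair_res {L Ω : Type} [Group L] [Fintype Ω] [DecidableEq Ω]
    {ψ : L →* alternatingGroup Ω} {e B B' q p : ℕ} {a h : L} (hB : B' ≤ B)
    (hp : HPair ψ e B q p a h) {H : Subgroup L} (ha : a ∈ H) (hh : h ∈ H) :
    HPair (ψ.comp H.subtype) e B' q p ⟨a, ha⟩ ⟨h, hh⟩ := by
  obtain ⟨h1, h2, h3, h4, h5, h6, h7, h8, h9, h10, h11⟩ := hp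
  refine ⟨h1, h2, h3, h4, h5, Subtype.ext (by simpa using h6),
    Subtype.ext (by simpa using h7), ?_, ?_, ?_, ?_⟩
  · rcases h8 with h8 | ⟨h8, h8'⟩
    · exact Or.inl (Subtype.ext (by simpa using h8))
    · exact Or.inr ⟨h8, Subtype.ext (by simpa using h8')⟩
  · intro h0
    exact h9 (congrArg Subtype.val h0)
  · intro h0
    obtain ⟨n, hn⟩ := Subgroup.mem_zpowers_iff.mp h0
    refine h10 (Subgroup.mem_zpowers_iff.mpr ⟨n, ?_⟩)
    have h12 := congrArg Subtype.val hn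
    simpa using h12
  · intro i j hij
    refine hB.trans (h11 i j ?_)
    intro h0
    exact hij (Subtype.ext (by simpa using h0))

/-- restriction of `Rel` -/
theorem rel_res {L K V : Type} [Group L] [Field K] [AddCommGroup V] [Module K V]
    {ρ : L →* Module.End K V} {a h : L} {q : ℕ} (hr : Rel ρ a h q) {H : Subgroup L}
    {E : Submodule K V} (hE : ∀ y ∈ H, ∀ v ∈ E, ρ y v ∈ E) (ha : a ∈ H) (hh : h ∈ H) :
    Rel (resRep ρ H E hE) ⟨a, ha⟩ ⟨h, hh⟩ q := by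
  intro v
  apply Subtype.ext
  have h1 : ((∑ j ∈ Finset.range q, resRep ρ H E hE (⟨a, ha⟩ ^ j) v : E) : V) =
      ∑ j ∈ Finset.range q, ρ (a ^ j) (v : V) := by
    rw [Submodule.coe_sum]
    rfl
  rw [resRep_coe, h1]
  exact hr v

theorem pf_pcx : T_KA → T_DP → T_PC → T_PCX := by
  intro hKA hDP hPC e
  obtain ⟨B₀, hB₀⟩ := hPC e
  refine ⟨max B₀ (e + 6), ?_⟩
  intro L Ω _ _ _ _ ψ X hX K V _ _ _ _ _ ρ hV hsc q p a h hp hqK hrel
  have hq : q.Prime := hp.1
  have hq5 : 5 ≤ q := hp.2.1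
  have hqe : q ≤ e := hp.2.2.1
  have haq : a ^ q = 1 := hp.2.2.2.2.2.1
  have hah : a * h = h * a := hp.2.2.2.2.2.2.1
  have ha1 : a ≠ 1 := hp.2.2.2.2.2.2.2.2.1
  have hsupp : max B₀ (e + 6) ≤ (ψ a : Perm Ω).support.card := by
    have h1 := hp.2.2.2.2.2.2.2.2.2.2 1 0 (by simpa using ha1)
    simpa using h1
  have hcard : q + 5 ≤ Fintype.card Ω := by
    have h1 : (ψ a : Perm Ω).support.card ≤ Fintype.card Ω := Finset.card_le_univ _
    have h2 := le_max_right B₀ (e + 6)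
    omega
  obtain ⟨k1, k2⟩ := hKA L Ω ψ X hX K V ρ hV hsc q a hq hq5 hcard haq
  have hsur : ∀ σ : alternatingGroup Ω, ∃ x ∈ X, ψ x = σ := by
    intro σ
    have h1 : σ ∈ X.map ψ := by
      rw [hX.2.1]
      trivial
    exact Subgroup.mem_map.mp h1
  obtain ⟨xa, hxa, hxa'⟩ := hsur (ψ a)
  obtain ⟨xh, hxh, hxh'⟩ := hsur (ψ h)
  have hka : xa⁻¹ * a ∈ ψ.ker := by
    rw [MonoidHom.mem_ker, map_mul, map_inv, hxa', inv_mul_cancel]
  have hkh : xh⁻¹ * h ∈ ψ.ker := by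
    rw [MonoidHom.mem_ker, map_mul, map_inv, hxh', inv_mul_cancel]
  have hkah : ρ (xa⁻¹ * a) * ρ h = ρ h * ρ (xa⁻¹ * a) :=
    comm_k (k2 xa hxa hxa' h hah) hah
  have hkk : ρ (xa⁻¹ * a) * ρ (xh⁻¹ * h) = ρ (xh⁻¹ * h) * ρ (xa⁻¹ * a) := by
    rw [map_mul ρ xh⁻¹ h, ← mul_assoc, k1 _ hka xh⁻¹ (X.inv_mem hxh), mul_assoc, hkah,
      ← mul_assoc]
  obtain ⟨z, t, v, hv0, hvz, hvt⟩ := exists_common hV _ _ hkk
  set E : Submodule K V := Module.End.eigenspace (ρ (xa⁻¹ * a)) z ⊓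
    Module.End.eigenspace (ρ (xh⁻¹ * h)) t with hEdef
  have hvE : v ∈ E :=
    ⟨Module.End.mem_eigenspace_iff.mpr hvz, Module.End.mem_eigenspace_iff.mpr hvt⟩
  have hXE : ∀ x ∈ X, ∀ u ∈ E, ρ x u ∈ E := by
    rintro x hx u ⟨hu1, hu2⟩
    have hu1 := Module.End.mem_eigenspace_iff.mp hu1
    have hu2 := Module.End.mem_eigenspace_iff.mp hu2
    refine ⟨?_, ?_⟩
    · rw [SetLike.mem_coe, Module.End.mem_eigenspace_iff, ← Module.End.mul_apply,
        k1 _ hka x hx, Module.End.mul_apply, hu1, map_smul]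
    · rw [SetLike.mem_coe, Module.End.mem_eigenspace_iff, ← Module.End.mul_apply,
        k1 _ hkh x hx, Module.End.mul_apply, hu2, map_smul]
  obtain ⟨hE, hk⟩ := sup_facts (S := {xa⁻¹ * a, xh⁻¹ * h}) hX.1 hsc hXE
    (by
      rintro k (rfl | rfl)
      · exact hka
      · exact hkh)
    (by
      rintro k (rfl | rfl)
      · exact ⟨z, fun u hu => Module.End.mem_eigenspace_iff.mp hu.1⟩
      · exact ⟨t, fun u hu => Module.End.mem_eigenspace_iff.mp hu.2⟩)
  set H : Subgroup L := X ⊔ Subgroup.closure {xa⁻¹ * a, xh⁻¹ * h} with hHdef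
  have hXH : X ≤ H := le_sup_left
  have hcH : Subgroup.closure {xa⁻¹ * a, xh⁻¹ * h} ≤ H := le_sup_right
  have haH : a ∈ H := by
    have h1 : xa * (xa⁻¹ * a) ∈ H :=
      H.mul_mem (hXH hxa) (hcH (Subgroup.subset_closure (by simp)))
    simpa using h1
  have hhH : h ∈ H := by
    have h1 : xh * (xh⁻¹ * h) ∈ H :=
      H.mul_mem (hXH hxh) (hcH (Subgroup.subset_closure (by simp)))
    simpa using h1
  have hloc := hB₀ H Ω (ψ.comp H.subtype) K E (resRep ρ H E hE) q p ⟨a, haH⟩ ⟨h, hhH⟩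
    (surj_res hX.2.1 hXH) (scal_res hE hk) (hpair_res (le_max_left _ _) hp haH hhH) hqK
    (rel_res hrel hE haH hhH)
  exact ⟨v, hv0, locAt_of hDP hXH (hq5.trans hqe) hE hloc hvE⟩

end Pool.Agent.H3.NZ.PCX
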